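import Pool.Agent.J6H89.Zeck.Order

/-!
# The maximum order complexity of the Zeckendorf parity sequence
-/

set_option autoImplicit false

open Filter Topology
open Nat (fib fib_add_two fib_pos fib_mono fib_le_fib_succ zeckendorf)

namespace Pool.Agent.Results.MP_b74c76_co.ExactOrder

/-- The Zeckendorf sum of digits `s_Z`: the number of Fibonacci numbers in the Zeckendorf
representation. -/
def sZ (n : ℕ) : ℕ := (Nat.zeckendorf n).length

/-- The binary sequence `𝒮_Z = (s_Z(n) mod 2)`. -/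
def SZ (n : ℕ) : Bool := decide (sZ n % 2 = 1)

/-- The `N`th maximum order complexity of a binary sequence: the least `k` such that there is
`f : {0,1}^k → {0,1}` with `a (i + k) = f (a i, …, a (i + k - 1))` for all `i` with
`i + k ≤ N - 1`. -/
noncomputable def maxOrder (a : ℕ → Bool) (N : ℕ) : ℕ :=
  sInf {k : ℕ | ∃ f : (Fin k → Bool) → Bool,
    ∀ i : ℕ, i + k < N → a (i + k) = f fun j : Fin k => a (i + j)}

theorem SZ_eq : SZ = J6H89.Zeck.s := by
  funext n
  unfold SZ sZ J6H89.Zeck.s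
  have := Nat.mod_two_of_bodd (zeckendorf n).length
  cases hb : (zeckendorf n).length.bodd
  · rw [hb] at this
    apply decide_eq_false
    rw [this]; simp
  · rw [hb] at this
    apply decide_eq_true
    rw [this]; simp

theorem mem_iff (a : ℕ → Bool) (N k : ℕ) :
    (∃ f : (Fin k → Bool) → Bool,
      ∀ i : ℕ, i + k < N → a (i + k) = f fun j : Fin k => a (i + j)) ↔
      J6H89.Zeck.Good a k N := by
  constructor
  · rintro ⟨f, hf⟩ i i' hi hi' hm
    rw [hf i hi, hf i' hi']
    congr 1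
    funext j
    exact hm j j.2
  · intro h
    classical
    refine ⟨fun w => if hw : ∃ i, i + k < N ∧ (fun j : Fin k => a (i + j)) = w then
      a (hw.choose + k) else false, fun i hi => ?_⟩
    have hw : ∃ i', i' + k < N ∧ (fun j : Fin k => a (i' + j)) = fun j : Fin k => a (i + j) :=
      ⟨i, hi, rfl⟩
    show _ = dite _ _ _
    rw [dif_pos hw]
    apply h i _ hi hw.choose_spec.1
    intro t ht
    exact (congrFun hw.choose_spec.2 ⟨t, ht⟩).symm

/-- The exact value of the maximum order complexity. -/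
theorem exact_value {k : ℕ} (hk : 3 ≤ k) {N : ℕ} (h1 : fib (k - 1) + fib (k + 1) < N)
    (h2 : N ≤ fib k + fib (k + 2)) : maxOrder SZ N = fib (k - 1) + 1 + k % 2 := by
  rw [maxOrder]
  simp only [mem_iff, SZ_eq]
  apply le_antisymm
  · exact Nat.sInf_le ((J6H89.Zeck.good hk).anti h2)
  · apply le_csInf ⟨_, (J6H89.Zeck.good hk).anti h2⟩
    intro l hl
    by_contra hcon
    exact J6H89.Zeck.not_good hk ((J6H89.Zeck.Good.anti hl h1).mono (by omega))

/-- Every `N > 4` lies in one of the intervals. -/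
theorem exists_interval {N : ℕ} (hN : 4 < N) :
    ∃ k, 3 ≤ k ∧ fib (k - 1) + fib (k + 1) < N ∧ N ≤ fib k + fib (k + 2) := by
  have hex : ∃ k, 3 ≤ k ∧ N ≤ fib k + fib (k + 2) := by
    refine ⟨N + 3, by omega, ?_⟩
    have h1 := Nat.le_fib_add_one (N + 3)
    have h2 : fib (N + 3) ≤ fib (N + 3 + 1) := fib_le_fib_succ
    have h3 : 0 < fib (N + 3 + 2) := fib_pos.2 (by omega)
    have h4 : N + 3 ≤ fib (N + 3) + 1 := by
      have := Nat.le_fib_add_one (N + 3)
      omega
    omega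
  classical
  refine ⟨Nat.find hex, (Nat.find_spec hex).1, ?_, (Nat.find_spec hex).2⟩
  by_contra hcon
  push Not at hcon
  rcases Nat.lt_or_ge 3 (Nat.find hex) with h | h
  · apply Nat.find_min hex (m := Nat.find hex - 1) (by omega)
    refine ⟨by omega, ?_⟩
    rwa [show Nat.find hex - 1 + 2 = Nat.find hex + 1 by omega]
  · have h3 : Nat.find hex = 3 := le_antisymm h (Nat.find_spec hex).1
    rw [h3] at hcon
    have h4 : fib (3 - 1) + fib (3 + 1) = 4 := rfl
    omega

section Real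

open scoped goldenRatio

theorem psi_pow_le (n : ℕ) : -1 ≤ ψ ^ n ∧ ψ ^ n ≤ 1 := by
  have h : |ψ ^ n| ≤ 1 := by
    rw [abs_pow]
    apply pow_le_one₀ (abs_nonneg _)
    rw [abs_le]
    have := Real.goldenConj_neg
    have := Real.neg_one_lt_goldenConj
    constructor <;> linarith
  exact abs_le.1 h

theorem lucas_lower {k : ℕ} (hk : 1 ≤ k) :
    ((fib (k - 1) + fib (k + 1) : ℕ) : ℝ) = (1 + φ ^ 2) * fib (k - 1) + ψ ^ (k - 1) := by
  obtain ⟨k, rfl⟩ : ∃ j, k = j + 1 := ⟨k - 1, by omega⟩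
  have h1 := Real.fib_succ_sub_goldenRatio_mul_fib k
  have h2 := Real.fib_succ_sub_goldenRatio_mul_fib (k + 1)
  have h3 := Real.goldenRatio_add_goldenConj
  rw [show k + 1 - 1 = k by omega]
  push_cast
  rw [pow_succ] at h2
  have h4 : ψ ^ k = ψ ^ k * (φ + ψ) := by rw [h3]; ring
  rw [h4]
  linear_combination h2 + φ * h1

theorem lucas_upper {k : ℕ} (hk : 1 ≤ k) :
    ((fib k + fib (k + 2) : ℕ) : ℝ) = (φ + φ ^ 3) * fib (k - 1) + 3 * ψ ^ (k - 1) := by
  obtain ⟨k, rfl⟩ : ∃ j, k = j + 1 := ⟨k - 1, by omega⟩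
  have h1 := Real.fib_succ_sub_goldenRatio_mul_fib k
  have h2 := Real.fib_succ_sub_goldenRatio_mul_fib (k + 1)
  have h2' := Real.fib_succ_sub_goldenRatio_mul_fib (k + 1 + 1)
  have h3 := Real.goldenRatio_add_goldenConj
  have h5 := Real.goldenRatio_sq
  have h6 := Real.goldenConj_sq
  rw [show k + 1 - 1 = k by omega]
  push_cast
  rw [pow_succ] at h2
  rw [pow_succ, pow_succ] at h2'
  have h4 : 3 * ψ ^ k = ψ ^ k * (1 + ψ ^ 2 + φ * ψ + φ ^ 2) := by
    have : 1 + ψ ^ 2 + φ * ψ + φ ^ 2 = 3 := by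
      have h7 := Real.goldenRatio_mul_goldenConj
      rw [h5, h6, h7]
      linarith
    rw [this]; ring
  rw [h4]
  linear_combination h2' + φ * h2 + (1 + φ ^ 2) * h1

/-- The upper slope. -/
noncomputable def c : ℝ := 1 / (1 + φ ^ 2)
/-- The lower slope. -/
noncomputable def d : ℝ := 1 / (φ + φ ^ 3)

theorem c_pos : 0 < c := by unfold c; positivity

theorem d_pos : 0 < d := by
  unfold d
  have := Real.goldenRatio_pos
  positivity

theorem c_mul : c * (1 + φ ^ 2) = 1 := by
  unfold c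
  have : (1 + φ ^ 2) ≠ 0 := by positivity
  field_simp

theorem d_mul : d * (φ + φ ^ 3) = 1 := by
  unfold d
  have := Real.goldenRatio_pos
  have : (φ + φ ^ 3) ≠ 0 := by positivity
  field_simp

theorem c_lt : c ≤ 1 / 3 := by
  unfold c
  have h1 := Real.goldenRatio_sq
  have h2 := Real.one_lt_goldenRatio
  apply one_div_le_one_div_of_le (by norm_num)
  linarith

theorem d_lt : d < c := by
  unfold c d
  have h2 := Real.one_lt_goldenRatio
  apply one_div_lt_one_div_of_lt (by positivity)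
  nlinarith [sq_nonneg φ]

/-- The ratio. -/
noncomputable def u (N : ℕ) : ℝ := (maxOrder SZ N : ℝ) / N

theorem u_upper {N : ℕ} (hN : 4 < N) : u N ≤ c + 3 / N := by
  obtain ⟨k, hk, h1, h2⟩ := exists_interval hN
  have hM := exact_value hk h1 h2
  have hN0 : (0 : ℝ) < N := by exact_mod_cast (by omega : 0 < N)
  have h3 : (maxOrder SZ N : ℝ) ≤ fib (k - 1) + 2 := by
    have : maxOrder SZ N ≤ fib (k - 1) + 2 := by omega
    exact_mod_cast this
  have h4 := lucas_lower (k := k) (by omega)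
  have h5 : ((fib (k - 1) + fib (k + 1) : ℕ) : ℝ) < N := by exact_mod_cast h1
  have h6 := psi_pow_le (k - 1)
  have h7 : (fib (k - 1) : ℝ) ≤ c * (N + 1) := by
    have h8 : (1 + φ ^ 2) * (fib (k - 1) : ℝ) ≤ N + 1 := by linarith [h6.1]
    calc (fib (k - 1) : ℝ) = c * ((1 + φ ^ 2) * fib (k - 1)) := by
          rw [← mul_assoc, c_mul, one_mul]
      _ ≤ c * (N + 1) := mul_le_mul_of_nonneg_left h8 c_pos.le
  unfold u
  rw [div_le_iff₀ hN0, add_mul, div_mul_cancel₀ _ hN0.ne']
  have := c_lt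
  nlinarith

theorem u_lower {N : ℕ} (hN : 4 < N) : d ≤ u N := by
  obtain ⟨k, hk, h1, h2⟩ := exists_interval hN
  have hM := exact_value hk h1 h2
  have hN0 : (0 : ℝ) < N := by exact_mod_cast (by omega : 0 < N)
  have h3 : (fib (k - 1) : ℝ) + 1 ≤ (maxOrder SZ N : ℝ) := by
    have : fib (k - 1) + 1 ≤ maxOrder SZ N := by omega
    exact_mod_cast this
  have h4 := lucas_upper (k := k) (by omega)
  have h5 : (N : ℝ) ≤ ((fib k + fib (k + 2) : ℕ) : ℝ) := by exact_mod_cast h2
  have h6 := psi_pow_le (k - 1)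
  have h7 : d * (N - 3) ≤ (fib (k - 1) : ℝ) := by
    have h8 : (N : ℝ) - 3 ≤ (φ + φ ^ 3) * (fib (k - 1) : ℝ) := by linarith [h6.2]
    calc d * (N - 3) ≤ d * ((φ + φ ^ 3) * fib (k - 1)) :=
          mul_le_mul_of_nonneg_left h8 d_pos.le
      _ = (fib (k - 1) : ℝ) := by rw [← mul_assoc, d_mul, one_mul]
  unfold u
  rw [le_div_iff₀ hN0]
  have := c_lt
  have := d_lt
  nlinarith

theorem u_at_jump {k : ℕ} (hk : 3 ≤ k) : c ≤ u (fib (k - 1) + fib (k + 1) + 1) := by
  have h0 : fib (k - 1) + fib (k + 1) + 1 ≤ fib k + fib (k + 2) := by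
    have e1 : fib (k + 2) = fib k + fib (k + 1) := fib_add_two
    have e2 : fib (k - 1) ≤ fib k := fib_mono (by omega)
    have e3 : 0 < fib k := fib_pos.2 (by omega)
    omega
  have hM := exact_value hk (Nat.lt_succ_self _) h0
  set N := fib (k - 1) + fib (k + 1) + 1 with hNdef
  have hN0 : (0 : ℝ) < N := by exact_mod_cast (by omega : 0 < N)
  have h3 : (fib (k - 1) : ℝ) + 1 ≤ (maxOrder SZ N : ℝ) := by
    have : fib (k - 1) + 1 ≤ maxOrder SZ N := by
      rw [show N = (fib (k - 1) + fib (k + 1)).succ from rfl, hM]; omega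
    exact_mod_cast this
  have h4 := lucas_lower (k := k) (by omega)
  have h5 : (N : ℝ) = ((fib (k - 1) + fib (k + 1) : ℕ) : ℝ) + 1 := by
    rw [hNdef]; push_cast; ring
  have h6 := psi_pow_le (k - 1)
  have h7 : c * (N - 2) ≤ (fib (k - 1) : ℝ) := by
    have h8 : (N : ℝ) - 2 ≤ (1 + φ ^ 2) * (fib (k - 1) : ℝ) := by linarith [h6.2]
    calc c * (N - 2) ≤ c * ((1 + φ ^ 2) * fib (k - 1)) :=
          mul_le_mul_of_nonneg_left h8 c_pos.le
      _ = (fib (k - 1) : ℝ) := by rw [← mul_assoc, c_mul, one_mul]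
  unfold u
  rw [le_div_iff₀ hN0]
  have := c_lt
  nlinarith

theorem u_before_jump {k : ℕ} (hk : 3 ≤ k) :
    u (fib k + fib (k + 2)) ≤ d + 3 / ((fib k + fib (k + 2) : ℕ) : ℝ) := by
  have h0 : fib (k - 1) + fib (k + 1) < fib k + fib (k + 2) := by
    have e1 : fib (k + 2) = fib k + fib (k + 1) := fib_add_two
    have e2 : fib (k - 1) ≤ fib k := fib_mono (by omega)
    have e3 : 0 < fib k := fib_pos.2 (by omega)
    omega
  have hM := exact_value hk h0 le_rfl
  set N := fib k + fib (k + 2) with hNdef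
  have hN0 : (0 : ℝ) < N := by exact_mod_cast (by omega : 0 < N)
  have h3 : (maxOrder SZ N : ℝ) ≤ (fib (k - 1) : ℝ) + 2 := by
    have : maxOrder SZ N ≤ fib (k - 1) + 2 := by omega
    exact_mod_cast this
  have h4 := lucas_upper (k := k) (by omega)
  rw [← hNdef] at h4
  have h6 := psi_pow_le (k - 1)
  have h7 : (fib (k - 1) : ℝ) ≤ d * (N + 3) := by
    have h8 : (φ + φ ^ 3) * (fib (k - 1) : ℝ) ≤ N + 3 := by linarith [h6.1]
    calc (fib (k - 1) : ℝ) = d * ((φ + φ ^ 3) * fib (k - 1)) := by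
          rw [← mul_assoc, d_mul, one_mul]
      _ ≤ d * (N + 3) := mul_le_mul_of_nonneg_left h8 d_pos.le
  unfold u
  rw [div_le_iff₀ hN0, add_mul, div_mul_cancel₀ _ hN0.ne']
  have := c_lt
  have := d_lt
  nlinarith

theorem bdd_above : IsBoundedUnder (· ≤ ·) atTop u := by
  refine ⟨c + 3, ?_⟩
  rw [eventually_map]
  filter_upwards [eventually_gt_atTop 4] with N hN
  have h1 := u_upper hN
  have hN1 : (1 : ℝ) ≤ N := by exact_mod_cast (by omega : 1 ≤ N)
  have h2 : (3 : ℝ) / N ≤ 3 := by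
    rw [div_le_iff₀ (by linarith)]; linarith
  linarith

theorem bdd_below : IsBoundedUnder (· ≥ ·) atTop u := by
  refine ⟨d, ?_⟩
  rw [eventually_map]
  filter_upwards [eventually_gt_atTop 4] with N hN
  exact u_lower hN

theorem small_term {ε : ℝ} (hε : 0 < ε) : ∀ᶠ N : ℕ in atTop, (3 : ℝ) / N < ε := by
  have h : Tendsto (fun N : ℕ => (3 : ℝ) / N) atTop (𝓝 0) := tendsto_const_div_atTop_nhds_zero_nat 3
  exact h.eventually (gt_mem_nhds hε)

theorem fib_large (n : ℕ) : n ≤ fib (n + 3) := by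
  have := Nat.le_fib_add_one (n + 3)
  omega

theorem limsup_u : limsup u atTop = c := by
  apply le_antisymm
  · apply le_of_forall_pos_le_add
    intro ε hε
    apply limsup_le_of_le bdd_below.isCoboundedUnder_le
    filter_upwards [eventually_gt_atTop 4, small_term hε] with N hN h3
    linarith [u_upper hN]
  · apply le_limsup_of_frequently_le _ bdd_above
    rw [frequently_atTop]
    intro n
    refine ⟨fib (n + 3 - 1) + fib (n + 3 + 1) + 1, ?_, u_at_jump (by omega)⟩
    have h1 := fib_large n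
    have h2 : fib (n + 3) ≤ fib (n + 3 + 1) := fib_le_fib_succ
    omega

theorem liminf_u : liminf u atTop = d := by
  apply le_antisymm
  · apply le_of_forall_pos_le_add
    intro ε hε
    apply liminf_le_of_frequently_le _ bdd_below
    obtain ⟨n0, hn0⟩ := eventually_atTop.1 (small_term hε)
    rw [frequently_atTop]
    intro n
    have h1 := fib_large (n + n0)
    refine ⟨fib (n + n0 + 3) + fib (n + n0 + 3 + 2), by omega, ?_⟩
    have h2 := u_before_jump (k := n + n0 + 3) (by omega)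
    have h3 := hn0 (fib (n + n0 + 3) + fib (n + n0 + 3 + 2)) (by omega)
    linarith
  · apply le_liminf_of_le bdd_above.isCoboundedUnder_ge
    filter_upwards [eventually_gt_atTop 4] with N hN
    exact u_lower hN

end Real

/-- **Main theorem.** For `k ≥ 3` and `L_k < N ≤ L_{k+1}` (Lucas numbers
`L_k = F_{k-1} + F_{k+1}`) one has `M(𝒮_Z, N) = F_{k-1} + 1 + (k mod 2)`. Hence
`M(𝒮_Z, N) / N` has upper limit `1 / (1 + φ²)` and lower limit `1 / (φ + φ³)`, so it has no limit,
and in particular `M(𝒮_Z, N) ∼ N / (1 + φ²)` is false. -/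
theorem result :
    (∀ k : ℕ, 3 ≤ k → ∀ N : ℕ, Nat.fib (k - 1) + Nat.fib (k + 1) < N →
      N ≤ Nat.fib k + Nat.fib (k + 2) → maxOrder SZ N = Nat.fib (k - 1) + 1 + k % 2) ∧
    limsup (fun N : ℕ => (maxOrder SZ N : ℝ) / N) atTop = 1 / (1 + Real.goldenRatio ^ 2) ∧
    liminf (fun N : ℕ => (maxOrder SZ N : ℝ) / N) atTop =
      1 / (Real.goldenRatio + Real.goldenRatio ^ 3) ∧
    ¬ ∃ l : ℝ, Tendsto (fun N : ℕ => (maxOrder SZ N : ℝ) / N) atTop (𝓝 l) := by
  refine ⟨fun k hk N h1 h2 => exact_value hk h1 h2, limsup_u, liminf_u, ?_⟩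
  rintro ⟨l, hl⟩
  have h1 : limsup u atTop = l := hl.limsup_eq
  have h2 : liminf u atTop = l := hl.liminf_eq
  rw [limsup_u] at h1
  rw [liminf_u] at h2
  have := d_lt
  linarith

end Pool.Agent.Results.MP_b74c76_co.ExactOrder
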